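import Mathlib
import Pool.Agent.H21.SP2

namespace Pool.Agent.Results.MP_70eb0a_al.No

open Pool.Agent.H21.SP

theorem result :
    CondN 2 (QuaternionGroup 3) ∧ ¬Semiperfect (MonoidAlgebra (Zp 2) (QuaternionGroup 3)) :=
  ⟨fun P _ => all_red _ P rfl, not_semi⟩

end Pool.Agent.Results.MP_70eb0a_al.No
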